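import Pool.Agent.H482R3.EA.Stm

set_option autoImplicit false

/-! Project EA (helper482), task BASE: rank at most one (helper329). -/

namespace Pool.Agent.H329R.EA

open Pool.Agent.H482R3.EA

/-- total exponent -/
def tot {n : ℕ} (u : W (Fin n)) : ℤ :=
  ((u.filter (fun a => decide (a.2 = true))).length : ℤ) -
    ((u.filter (fun a => decide (a.2 = false))).length : ℤ)

lemma tot_nil {n : ℕ} : tot ([] : W (Fin n)) = 0 := by simp [tot]

lemma tot_cons {n : ℕ} (a : Fin n × Bool) (u : W (Fin n)) :
    tot (a :: u) = (if a.2 then 1 else -1) + tot u := by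
  obtain ⟨s, b⟩ := a
  cases b
  · simp [tot]; ring
  · simp [tot]; ring

lemma ev_cons {S G : Type} [Group G] (f : S → G) (a : S × Bool) (u : W S) :
    ev f (a :: u) = (if a.2 then f a.1 else (f a.1)⁻¹) * ev f u := by
  simp [ev]

lemma ev_const {S G : Type} [Group G] (g : G) (u : List (S × Bool)) (f : S → G)
    (hf : ∀ s, f s = g) {n : ℕ} (e : S → Fin n) :
    ev f u = g ^ tot (u.map fun a => (e a.1, a.2)) := by
  induction u with
  | nil => simp [ev, tot_nil]
  | cons a u ih =>
    rw [ev_cons, ih, List.map_cons, tot_cons, hf, zpow_add]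
    congr 1
    cases a.2 <;> simp

/-- the total exponent as a homomorphism -/
noncomputable def deg {n : ℕ} (c : Fin n → Fin n → ℕ) :
    Pool.Agent.H482R3.EA.EA c →* Multiplicative ℤ :=
  PresentedGroup.toGroup (rels := rels c) (f := fun _ => Multiplicative.ofAdd (1 : ℤ)) (by
    rintro r ⟨s, t, -, -, rfl⟩
    simp)

lemma deg_gen {n : ℕ} (c : Fin n → Fin n → ℕ) (s : Fin n) :
    deg c (gen c s) = Multiplicative.ofAdd (1 : ℤ) := by
  simp [deg, gen]

lemma deg_ev {n : ℕ} (c : Fin n → Fin n → ℕ) (u : W (Fin n)) :
    deg c (ev (gen c) u) = Multiplicative.ofAdd (tot u) := by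
  induction u with
  | nil => simp [ev, tot_nil]
  | cons a u ih =>
    rw [ev_cons, map_mul, ih, tot_cons, ofAdd_add]
    congr 1
    cases a.2
    · simp [deg_gen]
    · simp [deg_gen]

lemma triv_iff {n : ℕ} (c : Fin n → Fin n → ℕ) (hn : n ≤ 1) (u : W (Fin n)) :
    Triv c u ↔ (u.filter (fun a => decide (a.2 = true))).length =
      (u.filter (fun a => decide (a.2 = false))).length := by
  have h0 : Triv c u ↔ tot u = 0 := by
    constructor
    · intro h
      have h1 := deg_ev c u
      rw [show ev (gen c) u = 1 from h, map_one] at h1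
      have h2 := congrArg Multiplicative.toAdd h1
      simpa using h2.symm
    · intro h
      cases u with
      | nil => simp [Triv, ev]
      | cons a u =>
        have hs : Subsingleton (Fin n) := by
          interval_cases n <;> infer_instance
        have h1 := ev_const (gen c a.1) (a :: u) (gen c) (fun s => by
          rw [Subsingleton.elim s a.1]) (fun s => s)
        unfold Triv
        rw [h1]
        simp only [Prod.mk.eta, List.map_id']
        rw [h, zpow_zero]
  rw [h0, tot, sub_eq_zero, Nat.cast_inj]

theorem t_BASE : S_BASE := by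
  intro n c hn
  have h1 : PrimrecPred (fun a : Fin n × Bool => a.2 = true) :=
    Primrec.eq.comp Primrec.snd (Primrec.const true)
  have h2 : PrimrecPred (fun a : Fin n × Bool => a.2 = false) :=
    Primrec.eq.comp Primrec.snd (Primrec.const false)
  have h3 : PrimrecPred (fun u : W (Fin n) =>
      (u.filter (fun a => decide (a.2 = true))).length =
      (u.filter (fun a => decide (a.2 = false))).length) :=
    Primrec.eq.comp (Primrec.list_length.comp (Primrec.listFilter h1))
      (Primrec.list_length.comp (Primrec.listFilter h2))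
  have h4 : (Triv c) = (fun u : W (Fin n) =>
      (u.filter (fun a => decide (a.2 = true))).length =
      (u.filter (fun a => decide (a.2 = false))).length) := by
    funext u
    exact propext (triv_iff c hn u)
  rw [h4]
  obtain ⟨hd, hp⟩ := h3
  exact ⟨hd, hp.to_comp⟩

end Pool.Agent.H329R.EA
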