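import Pool.Agent.H482R3.EB.Stm

set_option autoImplicit false

/-! Project EB (helper482), task DIHB: dihedral Artin groups (helper329). -/

namespace Pool.Agent.H329R.EA.DIHB

open Pool.Agent.H482R3.EA (W inv ev)
open Pool.Agent.H482R3.EB

/-! ### alternating words -/

/-- the alternating list of length `k` with first letter `x` -/
def altB : Bool → ℕ → List Bool
  | _, 0 => []
  | x, k + 1 => x :: altB (!x) k

/-- the letter at position `k` of an alternating list -/
def nx (x : Bool) (k : ℕ) : Bool := xor x k.bodd

lemma altB_length (k : ℕ) : ∀ x, (altB x k).length = k := by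
  induction k with
  | zero => intro x; rfl
  | succ k ih => intro x; simp [altB, ih]

lemma nx_zero (x : Bool) : nx x 0 = x := by simp [nx]

lemma nx_succ (x : Bool) (k : ℕ) : nx (!x) k = nx x (k + 1) := by
  simp only [nx, Nat.bodd_succ]
  cases x <;> cases k.bodd <;> rfl

lemma nx_add (x : Bool) (i j : ℕ) : nx (nx x i) j = nx x (i + j) := by
  simp only [nx, Nat.bodd_add]
  cases x <;> cases i.bodd <;> cases j.bodd <;> rfl

lemma nx_nx (x : Bool) (k : ℕ) : nx (nx x k) k = x := by
  simp only [nx]
  cases x <;> cases k.bodd <;> rfl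

lemma altB_add (i : ℕ) : ∀ x j, altB x (i + j) = altB x i ++ altB (nx x i) j := by
  induction i with
  | zero => intro x j; simp [altB, nx_zero]
  | succ i ih =>
    intro x j
    rw [show i + 1 + j = (i + j) + 1 by ring]
    simp only [altB]
    rw [ih, nx_succ]
    simp

lemma altB_map (k : ℕ) (m : ℕ) : ∀ x, (altB x k).map (fun y => nx y m) = altB (nx x m) k := by
  induction k with
  | zero => intro x; rfl
  | succ k ih =>
    intro x
    simp only [altB, List.map_cons, ih]
    congr 2
    simp only [nx]
    cases x <;> cases m.bodd <;> rfl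

/-- length of the maximal alternating prefix -/
def run : List Bool → ℕ
  | [] => 0
  | [_] => 1
  | x :: y :: l => if x = y then 1 else run (y :: l) + 1

lemma run_cons (x : Bool) (w : List Bool) :
    run (x :: w) = (if w.head? = some (!x) then run w else 0) + 1 := by
  cases w with
  | nil => simp [run]
  | cons y l =>
    simp only [run, List.head?_cons, Option.some.injEq]
    cases x <;> cases y <;> simp

lemma run_alt (w : List Bool) (k : ℕ) : ∀ x, run (altB x (k + 1) ++ w) =
    (k + 1) + (if w.head? = some (nx x (k + 1)) then run w else 0) := by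
  induction k with
  | zero =>
    intro x
    simp only [altB, List.cons_append, List.nil_append, run_cons]
    have : nx x (0 + 1) = !x := by rw [← nx_succ, nx_zero]
    rw [this]
    ring
  | succ k ih =>
    intro x
    rw [show altB x (k + 1 + 1) = x :: altB (!x) (k + 1) from rfl, List.cons_append, run_cons, ih,
      nx_succ]
    have : (altB (!x) (k + 1) ++ w).head? = some (!x) := by simp [altB]
    rw [if_pos this]
    ring

lemma run_prefix (k : ℕ) : ∀ (x : Bool) (w : List Bool), k + 1 ≤ run (x :: w) ↔
    x :: w = altB x (k + 1) ++ (x :: w).drop (k + 1) := by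
  induction k with
  | zero =>
    intro x w
    rw [run_cons]
    simp [altB]
  | succ k ih =>
    intro x w
    cases w with
    | nil => simp [run, altB]
    | cons y l =>
      have h := ih y l
      simp only [run]
      simp only [altB] at h ⊢
      by_cases hxy : x = y
      · subst hxy
        simp
      · rw [if_neg hxy]
        have hy : y = !x := by cases x <;> cases y <;> simp_all
        subst hy
        simp only [List.cons_append, List.drop_succ_cons, List.cons.injEq, true_and] at h ⊢
        rw [← h]
        omega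

lemma run_decomp (c : Bool) (w : List Bool) (h : w.head? = some c) :
    w = altB c (run w) ++ w.drop (run w) := by
  cases w with
  | nil => simp at h
  | cons x w =>
    simp only [List.head?_cons, Option.some.injEq] at h
    subst h
    obtain ⟨k, hk⟩ : ∃ k, run (x :: w) = k + 1 := ⟨_, run_cons x w⟩
    rw [hk]
    exact (run_prefix k x w).1 hk.ge

lemma run_map (m : ℕ) (w : List Bool) : run (w.map (fun y => nx y m)) = run w := by
  induction w with
  | nil => rfl
  | cons x w ih =>
    rw [List.map_cons, run_cons, run_cons, ih]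
    have : (w.map (fun y => nx y m)).head? = some (!nx x m) ↔ w.head? = some (!x) := by
      cases w with
      | nil => simp
      | cons y l =>
        simp only [List.map_cons, List.head?_cons, Option.some.injEq, nx]
        cases x <;> cases y <;> cases m.bodd <;> simp
    simp only [this]

/-- reduced lists -/
def Red (m : ℕ) : List Bool → Prop
  | [] => True
  | x :: w => run (x :: w) < m ∧ Red m w

lemma Red_drop (m : ℕ) (k : ℕ) : ∀ w, Red m w → Red m (w.drop k) := by
  induction k with
  | zero => intro w h; simpa using h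
  | succ k ih =>
    intro w h
    cases w with
    | nil => simpa using h
    | cons x w => simpa using ih w h.2

lemma Red_map (m : ℕ) (w : List Bool) (h : Red m w) : Red m (w.map (fun y => nx y m)) := by
  induction w with
  | nil => exact h
  | cons x w ih =>
    refine ⟨?_, ih h.2⟩
    have := run_map m (x :: w)
    rw [List.map_cons] at this
    rw [this]
    exact h.1

/-- left multiplication by the letter `x` -/
def add (m : ℕ) (x : Bool) (w : List Bool) : List Bool :=
  if x :: w = altB x m ++ (x :: w).drop m then ((x :: w).drop m).map (fun y => nx y m)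
  else x :: w

lemma add_of_lt {m : ℕ} (hm : 1 ≤ m) {x : Bool} {w : List Bool} (h : run (x :: w) < m) :
    add m x w = x :: w := by
  obtain ⟨k, rfl⟩ : ∃ k, m = k + 1 := ⟨m - 1, by omega⟩
  unfold add
  rw [if_neg]
  intro h'
  have := (run_prefix k x w).2 h'
  omega

lemma add_of_le {m : ℕ} (hm : 1 ≤ m) {x : Bool} {w : List Bool} (h : m ≤ run (x :: w)) :
    add m x w = ((x :: w).drop m).map (fun y => nx y m) := by
  obtain ⟨k, rfl⟩ : ∃ k, m = k + 1 := ⟨m - 1, by omega⟩
  unfold add
  rw [if_pos]
  exact (run_prefix k x w).1 h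

lemma add_Red {m : ℕ} (hm : 1 ≤ m) (x : Bool) (w : List Bool) (h : Red m w) :
    Red m (add m x w) := by
  by_cases h1 : run (x :: w) < m
  · rw [add_of_lt hm h1]
    exact ⟨h1, h⟩
  · rw [add_of_le hm (not_lt.1 h1)]
    refine Red_map m _ ?_
    obtain ⟨k, rfl⟩ : ∃ k, m = k + 1 := ⟨m - 1, by omega⟩
    rw [List.drop_succ_cons]
    exact Red_drop _ k w h

lemma foldr_Red {m : ℕ} (hm : 1 ≤ m) (l w : List Bool) (h : Red m (l ++ w)) :
    l.foldr (add m) w = l ++ w := by
  induction l with
  | nil => rfl
  | cons x l ih =>
    have h1 : run (x :: (l ++ w)) < m := h.1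
    rw [List.foldr_cons, ih h.2, add_of_lt hm h1]
    rfl

lemma alt_Red {m : ℕ} (w : List Bool) (hw : Red m w) (c : Bool) (k : ℕ) :
    ∀ x, nx x k = c → k + (if w.head? = some c then run w else 0) < m →
      Red m (altB x k ++ w) := by
  induction k with
  | zero =>
    intro x _ _
    simpa [altB] using hw
  | succ k ih =>
    intro x hx hk
    have h1 := run_alt w k x
    rw [hx] at h1
    refine ⟨?_, ?_⟩
    · show run (altB x (k + 1) ++ w) < m
      rw [h1]
      exact hk
    · exact ih (!x) (by rw [nx_succ]; exact hx) (by omega)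

/-- an alternating word of length `m` acts as the swap -/
lemma foldr_alt {m : ℕ} (hm : 1 ≤ m) (x : Bool) (w : List Bool) (hw : Red m w) :
    (altB x m).foldr (add m) w = w.map (fun y => nx y m) := by
  set c := nx x m with hc
  set j := if w.head? = some c then run w else 0 with hj
  have hjm : j < m := by
    rw [hj]
    split_ifs with h
    · cases w with
      | nil => simp at h
      | cons y w => exact hw.1
    · omega
  have hdec : w = altB c j ++ w.drop j := by
    rw [hj]
    split_ifs with h
    · exact run_decomp c w h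
    · simp [altB]
  obtain ⟨i, hi⟩ : ∃ i, m = j + (i + 1) := ⟨m - j - 1, by omega⟩
  have h1 : altB x m = altB x j ++ altB (nx x j) (i + 1) := by
    conv_lhs => rw [hi]
    exact altB_add j x (i + 1)
  have hc' : nx (nx x j) (i + 1) = c := by
    rw [nx_add, ← hi]
  rw [h1, List.foldr_append]
  have h2 : (altB (nx x j) (i + 1)).foldr (add m) w = (w.drop j).map (fun y => nx y m) := by
    have h3 : Red m (altB (!nx x j) i ++ w) :=
      alt_Red w hw c i _ (by rw [nx_succ]; exact hc') (by omega)
    show add m (nx x j) ((altB (!nx x j) i).foldr (add m) w) = _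
    rw [foldr_Red hm _ _ h3]
    have h4 : nx x j :: (altB (!nx x j) i ++ w) = altB (nx x j) (i + 1) ++ w := rfl
    rw [add_of_le hm]
    · rw [h4]
      have h5 : altB (nx x j) (i + 1) ++ w = altB (nx x j) m ++ w.drop j := by
        conv_lhs => rw [hdec]
        rw [← List.append_assoc, ← hc', ← altB_add, show i + 1 + j = m by omega]
      rw [h5, List.drop_append_of_le_length (by rw [altB_length])]
      rw [List.drop_of_length_le (by rw [altB_length]), List.nil_append]
    · rw [h4, run_alt, hc']
      omega
  rw [h2]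
  have h6 : altB x j ++ (w.drop j).map (fun y => nx y m) = w.map (fun y => nx y m) := by
    conv_rhs => rw [hdec]
    rw [List.map_append, altB_map, hc, nx_nx]
  rw [foldr_Red hm, h6]
  rw [h6]
  exact Red_map m w hw

/-! ### the action of the dihedral Artin group -/

/-- the letter of an index -/
def bl (i : Fin 2) : Bool := decide (i = 1)

lemma bl_ne {i j : Fin 2} (h : i ≠ j) : bl j = !bl i := by
  revert h; revert i j; decide

lemma alt_bl (k : ℕ) : ∀ i j : Fin 2, i ≠ j → (alt i j k).map bl = altB (bl i) k := by
  induction k with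
  | zero => intro i j _; rfl
  | succ k ih =>
    intro i j h
    simp only [alt, altB, List.map_cons]
    rw [ih j i h.symm, bl_ne h]

/-- reduced lists -/
abbrev Om (m : ℕ) : Type := {w : List Bool // Red m w}

/-- the letters act on the reduced lists -/
def addO (m : ℕ) (hm : 1 ≤ m) (x : Bool) (w : Om m) : Om m := ⟨add m x w.1, add_Red hm x w.1 w.2⟩

/-- the swap -/
def swO (m : ℕ) (w : Om m) : Om m := ⟨w.1.map (fun y => nx y m), Red_map m w.1 w.2⟩

lemma swO_swO (m : ℕ) (w : Om m) : swO m (swO m w) = w := by
  apply Subtype.ext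
  simp [swO, List.map_map, Function.comp_def, nx_nx]

lemma foldr_addO (m : ℕ) (hm : 1 ≤ m) (l : List Bool) (w : Om m) :
    (l.foldr (addO m hm) w).1 = l.foldr (add m) w.1 := by
  induction l with
  | nil => rfl
  | cons x l ih => rw [List.foldr_cons, List.foldr_cons, ← ih]; rfl

lemma foldr_altO (m : ℕ) (hm : 1 ≤ m) (x : Bool) (w : Om m) :
    (altB x m).foldr (addO m hm) w = swO m w := by
  apply Subtype.ext
  rw [foldr_addO, foldr_alt hm x w.1 w.2]
  rfl

lemma addO_bij (m : ℕ) (hm : 1 ≤ m) (x : Bool) : Function.Bijective (addO m hm x) := by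
  obtain ⟨k, rfl⟩ : ∃ k, m = k + 1 := ⟨m - 1, by omega⟩
  have hsw : Function.Bijective (swO (k + 1)) :=
    Function.Involutive.bijective (swO_swO (k + 1))
  constructor
  · -- the innermost letter
    have h1 : (altB (nx x k) (k + 1)) = altB (nx x k) k ++ [x] := by
      rw [altB_add]
      simp [altB, nx_nx]
    have h2 : swO (k + 1) = (fun w => (altB (nx x k) k).foldr (addO (k + 1) hm) w) ∘
        addO (k + 1) hm x := by
      funext w
      rw [← foldr_altO (k + 1) hm (nx x k) w, h1, List.foldr_append]
      rfl
    have := hsw.1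
    rw [h2] at this
    exact this.of_comp
  · have h2 : swO (k + 1) = addO (k + 1) hm x ∘
        (fun w => (altB (!x) k).foldr (addO (k + 1) hm) w) := by
      funext w
      rw [← foldr_altO (k + 1) hm x w]
      rfl
    have := hsw.2
    rw [h2] at this
    exact this.of_comp

/-- the letters as permutations -/
noncomputable def prm (m : ℕ) (hm : 1 ≤ m) (x : Bool) : Equiv.Perm (Om m) :=
  Equiv.ofBijective _ (addO_bij m hm x)

lemma prm_prod (m : ℕ) (hm : 1 ≤ m) (l : List Bool) (w : Om m) :
    ((l.map (prm m hm)).prod) w = l.foldr (addO m hm) w := by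
  induction l with
  | nil => rfl
  | cons x l ih =>
    rw [List.map_cons, List.prod_cons, Equiv.Perm.mul_apply, ih]
    rfl

lemma prm_alt (m : ℕ) (hm : 1 ≤ m) (x y : Bool) :
    ((altB x m).map (prm m hm)).prod = ((altB y m).map (prm m hm)).prod := by
  apply Equiv.ext
  intro w
  rw [prm_prod, prm_prod, foldr_altO, foldr_altO]

section grp

variable (M : Fin 2 → Fin 2 → ℕ) (m : ℕ) (hm : 1 ≤ m) (h01 : M 0 1 = m) (h10 : M 1 0 = m)

include h01 h10 in
lemma M_eq {i j : Fin 2} (h : i ≠ j) : M i j = m := by
  revert h; revert i j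
  intro i j h
  fin_cases i <;> fin_cases j <;> simp_all

/-- the action -/
noncomputable def psi : AR M →* Equiv.Perm (Om m) :=
  PresentedGroup.toGroup (rels := rels M) (f := fun i => prm m hm (bl i)) (by
    rintro r ⟨s, t, hst, -, rfl⟩
    rw [map_mul, map_inv, map_list_prod, map_list_prod, List.map_map, List.map_map,
      mul_inv_eq_one]
    have e : ⇑(FreeGroup.lift fun i => prm m hm (bl i)) ∘ FreeGroup.of =
        prm m hm ∘ bl := by
      funext i; simp
    rw [e, ← List.map_map, ← List.map_map, M_eq M m h01 h10 hst, alt_bl m s t hst,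
      alt_bl m t s hst.symm]
    exact prm_alt m hm _ _)

/-- generators by letters -/
def gB (x : Bool) : AR M := gR M (if x then 1 else 0)

/-- positive words -/
def pv (l : List Bool) : AR M := (l.map (gB M)).prod

lemma gB_bl (i : Fin 2) : gB M (bl i) = gR M i := by
  fin_cases i <;> simp [gB, bl]

lemma psi_gB (x : Bool) : psi M m hm h01 h10 (gB M x) = prm m hm x := by
  cases x <;> simp [psi, gB, gR, bl]

lemma psi_pv (l : List Bool) (w : Om m) :
    psi M m hm h01 h10 (pv M l) w = l.foldr (addO m hm) w := by
  rw [pv, map_list_prod, List.map_map]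
  have : ⇑(psi M m hm h01 h10) ∘ gB M = prm m hm := by
    funext x
    exact psi_gB M m hm h01 h10 x
  rw [this, prm_prod]

lemma pv_append (l l' : List Bool) : pv M (l ++ l') = pv M l * pv M l' := by
  simp [pv]

lemma pv_cons (x : Bool) (l : List Bool) : pv M (x :: l) = gB M x * pv M l := by
  simp [pv]

include hm h01 h10 in
lemma pv_alt (x y : Bool) : pv M (altB x m) = pv M (altB y m) := by
  have key : pv M (altB false m) = pv M (altB true m) := by
    have h1 : (((alt (0 : Fin 2) 1 (M 0 1)).map FreeGroup.of).prod *
        (((alt (1 : Fin 2) 0 (M 0 1)).map FreeGroup.of).prod)⁻¹) ∈ rels M :=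
      ⟨0, 1, by decide, by omega, rfl⟩
    have h2 := PresentedGroup.one_of_mem h1
    rw [map_mul, map_inv, mul_inv_eq_one, map_list_prod, map_list_prod, List.map_map,
      List.map_map, h01] at h2
    have e : ⇑(PresentedGroup.mk (rels M)) ∘ FreeGroup.of = gB M ∘ bl := by
      funext i
      rw [Function.comp_apply, Function.comp_apply, gB_bl]
      rfl
    rw [e, ← List.map_map, ← List.map_map, alt_bl m 0 1 (by decide),
      alt_bl m 1 0 (by decide)] at h2
    exact h2
  cases x <;> cases y
  · rfl
  · exact key
  · exact key.symm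
  · rfl

/-- the Garside element -/
def D : AR M := pv M (altB false m)

include hm h01 h10 in
lemma D_mul (x : Bool) : D M m * gB M (nx x m) = gB M x * D M m := by
  have h1 : pv M (altB x (m + 1)) = D M m * gB M (nx x m) := by
    rw [altB_add, pv_append, pv_alt M m hm h01 h10 x false]
    simp [altB, pv, D]
  have h2 : pv M (altB x (m + 1)) = gB M x * D M m := by
    rw [show altB x (m + 1) = x :: altB (!x) m from rfl, pv_cons,
      pv_alt M m hm h01 h10 (!x) false]
    rfl
  rw [← h1, h2]

include hm h01 h10 in
lemma D_mul' (x : Bool) : D M m * gB M x = gB M (nx x m) * D M m := by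
  have := D_mul M m hm h01 h10 (nx x m)
  rwa [nx_nx] at this

include hm h01 h10 in
lemma D_pv (l : List Bool) :
    D M m * pv M l = pv M (l.map (fun y => nx y m)) * D M m := by
  induction l with
  | nil => simp [pv]
  | cons x l ih =>
    rw [List.map_cons, pv_cons, pv_cons, ← mul_assoc, D_mul' M m hm h01 h10, mul_assoc, ih,
      mul_assoc]

include hm h01 h10 in
lemma add_pv (x : Bool) (w : List Bool) :
    ∃ k : ℕ, gB M x * pv M w = pv M (add m x w) * D M m ^ k := by
  unfold add
  split_ifs with h
  · refine ⟨1, ?_⟩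
    rw [pow_one, ← D_pv M m hm h01 h10, ← pv_cons]
    conv_lhs => rw [h]
    rw [pv_append, pv_alt M m hm h01 h10 x false]
    rfl
  · exact ⟨0, by rw [pow_zero, mul_one, pv_cons]⟩

include hm h01 h10 in
lemma foldr_pv (l : List Bool) : ∃ k : ℕ, pv M l = pv M (l.foldr (add m) []) * D M m ^ k := by
  induction l with
  | nil => exact ⟨0, by simp⟩
  | cons x l ih =>
    obtain ⟨k, hk⟩ := ih
    obtain ⟨k', hk'⟩ := add_pv M m hm h01 h10 x (l.foldr (add m) [])
    refine ⟨k' + k, ?_⟩
    rw [pv_cons, hk, ← mul_assoc, hk', mul_assoc, ← pow_add]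
    rfl

include hm h01 h10 in
lemma D2_comm (l : List Bool) : D M m ^ 2 * pv M l = pv M l * D M m ^ 2 := by
  rw [pow_two, mul_assoc, D_pv M m hm h01 h10, ← mul_assoc, D_pv M m hm h01 h10, mul_assoc]
  congr 2
  simp [List.map_map, Function.comp_def, nx_nx]

/-- the positive word of a letter -/
def pl (a : Fin 2 × Bool) : List Bool := if a.2 then [bl a.1] else altB (!bl a.1) (2 * m - 1)

include hm h01 h10 in
lemma pl_spec (a : Fin 2 × Bool) : ∃ k : ℕ,
    (if a.2 then gR M a.1 else (gR M a.1)⁻¹) * (D M m ^ 2) ^ k = pv M (pl m a) := by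
  unfold pl
  split_ifs with h
  · exact ⟨0, by simp [pv, gB_bl]⟩
  · refine ⟨1, ?_⟩
    rw [pow_one, inv_mul_eq_iff_eq_mul, ← gB_bl, ← pv_cons]
    have h1 : bl a.1 :: altB (!bl a.1) (2 * m - 1) = altB (bl a.1) (m + m) := by
      rw [show m + m = (2 * m - 1) + 1 by omega]
      rfl
    rw [h1, altB_add, pv_append, pv_alt M m hm h01 h10 _ false,
      pv_alt M m hm h01 h10 (nx (bl a.1) m) false, pow_two]
    rfl

include hm h01 h10 in
lemma pos_spec (u : W (Fin 2)) : ∃ k : ℕ,
    ev (gR M) u * (D M m ^ 2) ^ k = pv M (u.flatMap (pl m)) := by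
  induction u with
  | nil => exact ⟨0, by simp [ev, pv]⟩
  | cons a u ih =>
    obtain ⟨k, hk⟩ := ih
    obtain ⟨k', hk'⟩ := pl_spec M m hm h01 h10 a
    refine ⟨k' + k, ?_⟩
    have h1 : ev (gR M) (a :: u) = (if a.2 then gR M a.1 else (gR M a.1)⁻¹) * ev (gR M) u := by
      simp [ev]
    have h2 : Commute (D M m ^ 2) (ev (gR M) u) := by
      have h3 : Commute (D M m ^ 2) (pv M (u.flatMap (pl m))) := D2_comm M m hm h01 h10 _
      have h4 : ev (gR M) u = pv M (u.flatMap (pl m)) * ((D M m ^ 2) ^ k)⁻¹ := by
        rw [← hk]; group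
      rw [h4]
      exact h3.mul_right ((Commute.refl _).pow_right k).inv_right
    rw [h1, List.flatMap_cons, pv_append, ← hk, ← hk', pow_add]
    have h5 : (D M m ^ 2) ^ k' * ev (gR M) u = ev (gR M) u * (D M m ^ 2) ^ k' := h2.pow_left k'
    simp only [mul_assoc]
    congr 1
    rw [← mul_assoc, ← mul_assoc, h5]

lemma psi_D (w : Om m) : psi M m hm h01 h10 (D M m) w = swO m w := by
  rw [D, psi_pv, foldr_altO]

/-- the empty list -/
def nilO : Om m := ⟨[], trivial⟩

lemma psi_D_pow (k : ℕ) : psi M m hm h01 h10 (D M m ^ k) (nilO m) = nilO m := by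
  induction k with
  | zero => simp
  | succ k ih =>
    rw [pow_succ, map_mul, Equiv.Perm.mul_apply, psi_D]
    exact ih

include hm h01 h10 in
/-- decision criterion -/
lemma criterion (u : W (Fin 2)) : TR M u ↔
    ((u.flatMap (pl m)).foldr (add m) [] = [] ∧ tot u = 0) := by
  obtain ⟨k, hk⟩ := pos_spec M m hm h01 h10 u
  have htot : ∀ u : W (Fin 2), toth M (ev (gR M) u) = Multiplicative.ofAdd (tot u) := by
    intro u
    induction u with
    | nil => simp [ev, tot]
    | cons a u ih =>
      have h1 : ev (gR M) (a :: u) = (if a.2 then gR M a.1 else (gR M a.1)⁻¹) * ev (gR M) u := by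
        simp [ev]
      have h2 : tot (a :: u) = (if a.2 then 1 else -1) + tot u := by simp [tot]
      rw [h1, map_mul, ih, h2, ofAdd_add]
      congr 1
      cases a.2 <;> simp [toth, gR]
  constructor
  · intro h
    have h0 : ev (gR M) u = 1 := h
    refine ⟨?_, ?_⟩
    · rw [h0, one_mul] at hk
      have h1 := psi_pv M m hm h01 h10 (u.flatMap (pl m)) (nilO m)
      rw [← hk, ← pow_mul, psi_D_pow] at h1
      have h2 := congrArg Subtype.val h1
      rw [foldr_addO] at h2
      exact h2.symm
    · have h1 := htot u
      rw [h0, map_one] at h1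
      simpa using (congrArg Multiplicative.toAdd h1).symm
  · rintro ⟨h1, h2⟩
    obtain ⟨k', hk'⟩ := foldr_pv M m hm h01 h10 (u.flatMap (pl m))
    rw [h1] at hk'
    have h3 : ev (gR M) u * D M m ^ (2 * k) = D M m ^ k' := by
      rw [pow_mul, hk, hk']
      simp [pv]
    have hDm : toth M (D M m) = Multiplicative.ofAdd (m : ℤ) := by
      have h4 : ∀ l : List Bool, toth M (pv M l) = Multiplicative.ofAdd (l.length : ℤ) := by
        intro l
        induction l with
        | nil => simp [pv]
        | cons x l ih =>
          rw [pv_cons, map_mul, ih]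
          simp [toth, gB, gR, ← ofAdd_add, add_comm]
      rw [D, h4, altB_length]
    have h5 := congrArg (toth M) h3
    rw [map_mul, htot, h2, map_pow, map_pow, hDm] at h5
    have h6 : (2 * k : ℕ) * (m : ℤ) = (k' : ℕ) * (m : ℤ) := by
      have := congrArg Multiplicative.toAdd h5
      simpa using this
    have h7 : 2 * k = k' := by
      have hm' : (m : ℤ) ≠ 0 := by omega
      exact_mod_cast mul_right_cancel₀ hm' h6
    rw [h7] at h3
    show ev (gR M) u = 1
    exact mul_eq_right.1 h3

end grp

/-! ### computability -/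

lemma drop_primrec (m : ℕ) : Primrec (fun l : List Bool => l.drop m) :=
  Primrec.list_drop.comp (Primrec.const m) Primrec.id

lemma add_primrec (m : ℕ) : Primrec₂ (add m) := by
  have hl : Primrec (fun p : Bool × List Bool => p.1 :: p.2) :=
    Primrec.list_cons.comp Primrec.fst Primrec.snd
  have hd : Primrec (fun p : Bool × List Bool => (p.1 :: p.2).drop m) := (drop_primrec m).comp hl
  have ha : Primrec (fun p : Bool × List Bool => altB p.1 m) :=
    (Primrec.dom_finite (fun x : Bool => altB x m)).comp Primrec.fst
  have hc : PrimrecPred (fun p : Bool × List Bool =>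
      p.1 :: p.2 = altB p.1 m ++ (p.1 :: p.2).drop m) :=
    Primrec.eq.comp hl (Primrec.list_append.comp ha hd)
  have hm : Primrec (fun p : Bool × List Bool =>
      ((p.1 :: p.2).drop m).map (fun y => nx y m)) :=
    Primrec.list_map hd ((Primrec.dom_finite (fun y : Bool => nx y m)).comp Primrec.snd).to₂
  exact Primrec.ite hc hm hl

lemma tot_eq {n : ℕ} (u : W (Fin n)) : tot u =
    ((u.filter (fun a => decide (a.2 = true))).length : ℤ) -
    ((u.filter (fun a => decide (a.2 = false))).length : ℤ) := by
  induction u with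
  | nil => simp [tot]
  | cons a u ih =>
    have h2 : tot (a :: u) = (if a.2 then 1 else -1) + tot u := by simp [tot]
    rw [h2, ih]
    obtain ⟨s, b⟩ := a
    cases b
    · simp; ring
    · simp; ring

lemma tot_comp (n : ℕ) : ComputablePred (fun u : W (Fin n) => tot u = 0) := by
  have h1 : PrimrecPred (fun a : Fin n × Bool => a.2 = true) :=
    Primrec.eq.comp Primrec.snd (Primrec.const true)
  have h2 : PrimrecPred (fun a : Fin n × Bool => a.2 = false) :=
    Primrec.eq.comp Primrec.snd (Primrec.const false)
  have h3 : PrimrecPred (fun u : W (Fin n) =>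
      (u.filter (fun a => decide (a.2 = true))).length =
      (u.filter (fun a => decide (a.2 = false))).length) :=
    Primrec.eq.comp (Primrec.list_length.comp (Primrec.listFilter h1))
      (Primrec.list_length.comp (Primrec.listFilter h2))
  have h4 : (fun u : W (Fin n) => tot u = 0) = (fun u : W (Fin n) =>
      (u.filter (fun a => decide (a.2 = true))).length =
      (u.filter (fun a => decide (a.2 = false))).length) := by
    funext u
    rw [tot_eq, sub_eq_zero, Nat.cast_inj]
  rw [h4]
  obtain ⟨hd, hp⟩ := h3
  exact ⟨hd, hp.to_comp⟩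

lemma crit_comp (m : ℕ) : ComputablePred (fun u : W (Fin 2) =>
    ((u.flatMap (pl m)).foldr (add m) [] = [] ∧ tot u = 0)) := by
  have h1 : Primrec (fun u : W (Fin 2) => u.flatMap (pl m)) :=
    Primrec.list_flatMap Primrec.id ((Primrec.dom_finite (pl m)).comp Primrec.snd).to₂
  have h2 : Primrec (fun u : W (Fin 2) => (u.flatMap (pl m)).foldr (add m) []) := by
    have h3 : Primrec₂ (fun (_ : W (Fin 2)) (p : Bool × List Bool) => add m p.1 p.2) :=
      ((add_primrec m).comp (Primrec.fst.comp Primrec.snd) (Primrec.snd.comp Primrec.snd)).to₂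
    exact Primrec.list_foldr h1 (Primrec.const []) h3
  have h4 : PrimrecPred (fun u : W (Fin 2) => (u.flatMap (pl m)).foldr (add m) [] = []) :=
    Primrec.eq.comp h2 (Primrec.const [])
  obtain ⟨hd, hp⟩ := h4
  obtain ⟨hd', hp'⟩ := tot_comp 2
  refine ⟨fun u => instDecidableAnd, ?_⟩
  have h5 := Primrec.and.to_comp.comp hp.to_comp hp'
  refine h5.of_eq fun u => ?_
  simp

/-- rank two, finite label -/
lemma dih_fin (M : Fin 2 → Fin 2 → ℕ) (hM : M 1 0 = M 0 1) (h1 : 1 ≤ M 0 1) :
    ComputablePred (TR M) := by
  have h := crit_comp (M 0 1)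
  have e : TR M = (fun u : W (Fin 2) =>
      ((u.flatMap (pl (M 0 1))).foldr (add (M 0 1)) [] = [] ∧ tot u = 0)) := by
    funext u
    exact propext (criterion M (M 0 1) h1 rfl hM u)
  rw [e]
  exact h

/-- free group of rank two -/
lemma dih_inf (hF : Pool.Agent.H482R3.EA.S_FR) (M : Fin 2 → Fin 2 → ℕ) (hM : M 1 0 = M 0 1)
    (h1 : M 0 1 = 0) : ComputablePred (TR M) := by
  have hM0 : ∀ s t : Fin 2, s ≠ t → M s t = 0 := by
    intro s t hst
    exact M_eq M 0 h1 (by rw [hM, h1]) hst
  let φ : AR M →* FreeGroup (Fin 2) :=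
    PresentedGroup.toGroup (rels := rels M) (f := FreeGroup.of) (by
      rintro r ⟨s, t, hst, h, -⟩
      exact absurd (hM0 s t hst) h)
  have hφ : ∀ u : W (Fin 2), φ (ev (gR M) u) = ev FreeGroup.of u := by
    intro u
    simp only [ev, map_list_prod, List.map_map]
    congr 1
    refine List.map_congr_left fun a _ => ?_
    simp only [Function.comp_apply]
    split_ifs <;> simp [φ, gR]
  let ψ : FreeGroup (Fin 2) →* AR M := FreeGroup.lift (gR M)
  have hψ : ∀ u : W (Fin 2), ψ (ev FreeGroup.of u) = ev (gR M) u := by
    intro u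
    simp only [ev, map_list_prod, List.map_map]
    congr 1
    refine List.map_congr_left fun a _ => ?_
    simp only [Function.comp_apply]
    split_ifs <;> simp [ψ]
  have hTR : ∀ u : W (Fin 2), TR M u ↔ ev (FreeGroup.of : Fin 2 → FreeGroup (Fin 2)) u = 1 := by
    intro u
    constructor
    · intro h
      rw [← hφ, show ev (gR M) u = 1 from h, map_one]
    · intro h
      show ev (gR M) u = 1
      rw [← hψ, h, map_one]
  have hev : ∀ u : W (Fin 2), Pool.Agent.H482R3.EA.evF 2 (u.map fun a => ((a.1 : ℕ), a.2)) =
      ev (FreeGroup.of : Fin 2 → FreeGroup (Fin 2)) u := by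
    intro u
    unfold Pool.Agent.H482R3.EA.evF
    simp only [ev, List.map_map]
    congr 1
    refine List.map_congr_left fun a _ => ?_
    simp only [Function.comp_apply]
    have : ∀ i : Fin 2, Pool.Agent.H482R3.EA.xx 2 (((i : ℕ) % 2 : ℕ) : ℤ) = FreeGroup.of i := by
      intro i
      fin_cases i <;> simp [Pool.Agent.H482R3.EA.xx]
    rw [this]
  have h2 := hF 2 (by norm_num)
  have h3 : Primrec (fun u : W (Fin 2) => u.map fun a => ((a.1 : ℕ), a.2)) :=
    Primrec.list_map Primrec.id
      ((Primrec.pair ((Primrec.dom_finite (fun i : Fin 2 => (i : ℕ))).comp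
        (Primrec.fst.comp Primrec.snd)) (Primrec.snd.comp Primrec.snd))).to₂
  obtain ⟨hd, hp⟩ := h2
  have e : TR M = fun u : W (Fin 2) =>
      Pool.Agent.H482R3.EA.evF 2 (u.map fun a => ((a.1 : ℕ), a.2)) = 1 := by
    funext u
    rw [hev]
    exact propext (hTR u)
  rw [e]
  exact ⟨fun u => hd _, hp.comp h3.to_comp⟩

/-- rank at most one -/
lemma dih_one (n : ℕ) (hn : n ≤ 1) (m : Fin n → Fin n → ℕ) : ComputablePred (TR m) := by
  have hs : Subsingleton (Fin n) := by
    interval_cases n <;> infer_instance
  have e : TR m = fun u : W (Fin n) => tot u = 0 := by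
    funext u
    apply propext
    have htot : ∀ u : W (Fin n), toth m (ev (gR m) u) = Multiplicative.ofAdd (tot u) := by
      intro u
      induction u with
      | nil => simp [ev, tot]
      | cons a u ih =>
        have h1 : ev (gR m) (a :: u) =
            (if a.2 then gR m a.1 else (gR m a.1)⁻¹) * ev (gR m) u := by
          simp [ev]
        have h2 : tot (a :: u) = (if a.2 then 1 else -1) + tot u := by simp [tot]
        rw [h1, map_mul, ih, h2, ofAdd_add]
        congr 1
        cases a.2 <;> simp [toth, gR]
    constructor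
    · intro h
      have h1 := htot u
      rw [show ev (gR m) u = 1 from h, map_one] at h1
      simpa using (congrArg Multiplicative.toAdd h1).symm
    · intro h
      cases u with
      | nil => simp [TR, ev]
      | cons a u =>
        have h1 : ∀ v : W (Fin n), ev (gR m) v = gR m a.1 ^ tot v := by
          intro v
          induction v with
          | nil => simp [ev, tot]
          | cons b v ih =>
            have h1 : ev (gR m) (b :: v) =
                (if b.2 then gR m b.1 else (gR m b.1)⁻¹) * ev (gR m) v := by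
              simp [ev]
            have h2 : tot (b :: v) = (if b.2 then 1 else -1) + tot v := by simp [tot]
            rw [h1, ih, h2, zpow_add, Subsingleton.elim b.1 a.1]
            congr 1
            cases b.2 <;> simp
        show ev (gR m) (a :: u) = 1
        rw [h1, h, zpow_zero]
  rw [e]
  exact tot_comp n

theorem t_DIHB (hA : S_ARTR) (hF : Pool.Agent.H482R3.EA.S_FR) : S_DIHB := by
  intro n M hn
  have hsym : Symm (fun i j => M i j) := fun i j => M.symmetric i j
  have hcomp : ComputablePred (TR (fun i j => M i j)) := by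
    rcases Nat.lt_or_ge n 2 with h | h
    · exact dih_one n (by omega) _
    · obtain rfl : n = 2 := le_antisymm hn h
      rcases Nat.eq_zero_or_pos (M 0 1) with h0 | h0
      · exact dih_inf hF _ (M.symmetric 1 0) h0
      · exact dih_fin _ (M.symmetric 1 0) h0
  unfold SolvWP
  have e : (fun u : List (Fin n × Bool) =>
    (u.map (fun a => if a.2 then (PresentedGroup.of a.1 : Art (fun i j => M i j))
      else (PresentedGroup.of a.1)⁻¹)).prod = 1) = TR (fun i j => M i j) := by
    funext u
    exact propext (hA n (fun i j => M i j) (fun i => M.diagonal i) hsym u)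
  exact e ▸ hcomp

end Pool.Agent.H329R.EA.DIHB
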